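import Mathlib

namespace Pool.Agent.H.MP_b2f50e_co.A

open Finset

variable {n k : ℕ}

/-- number of monochromatic edges. -/
def X (E : Finset (Finset (Fin n))) (c : Fin n → Fin k) : ℕ :=
  (E.filter fun e => ∀ x ∈ e, ∀ y ∈ e, c x = c y).card

theorem mono (U : Finset (Fin n)) (c : Fin n → Fin k) :
    (U.card : ℝ) ^ 3 / k ^ 2 ≤
      ∑ x ∈ U, ∑ y ∈ U, ∑ z ∈ U, if c x = c y ∧ c x = c z then (1 : ℝ) else 0 := by
  have h1 : ∀ x y z, (if c x = c y ∧ c x = c z then (1 : ℝ) else 0) =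
      ∑ i, (if c x = i then (1 : ℝ) else 0) * ((if c y = i then (1 : ℝ) else 0) *
        (if c z = i then (1 : ℝ) else 0)) := by
    intro x y z
    rw [sum_eq_single (c x)]
    · by_cases a : c x = c y <;> by_cases b : c x = c z <;> simp [a, b, eq_comm]
    · intro i _ hi; simp [hi.symm]
    · simp
  have h2 : (∑ x ∈ U, ∑ y ∈ U, ∑ z ∈ U, if c x = c y ∧ c x = c z then (1 : ℝ) else 0) =
      ∑ i, (∑ x ∈ U, if c x = i then (1 : ℝ) else 0) ^ 3 := by
    simp only [h1]
    have : ∀ i, (∑ x ∈ U, if c x = i then (1 : ℝ) else 0) ^ 3 = ∑ x ∈ U, ∑ y ∈ U, ∑ z ∈ U,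
        (if c x = i then (1 : ℝ) else 0) * ((if c y = i then (1 : ℝ) else 0) *
        (if c z = i then (1 : ℝ) else 0)) := by
      intro i
      rw [pow_three, sum_mul_sum, sum_mul]
      simp only [mul_sum]
    simp only [this]
    rw [sum_comm (s := univ)]
    refine sum_congr rfl fun x _ => ?_
    rw [sum_comm (s := univ)]
    refine sum_congr rfl fun y _ => ?_
    rw [sum_comm (s := univ)]
  have h3 : ∑ i, (∑ x ∈ U, if c x = i then (1 : ℝ) else 0) = U.card := by
    rw [sum_comm]; simp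
  have := pow_sum_div_card_le_sum_pow (s := (univ : Finset (Fin k)))
    (f := fun i => ∑ x ∈ U, if c x = i then (1 : ℝ) else 0)
    (fun i _ => sum_nonneg fun x _ => by split_ifs <;> norm_num) 2
  rw [h3] at this
  rw [h2]
  simpa using this

theorem step (D : ℕ) (hk : 0 < k) (E : Finset (Finset (Fin n))) (h3 : ∀ e ∈ E, e.card = 3)
    (hd : ∀ v, (E.filter fun e => v ∈ e).card ≤ D) (hE : 6 * E.card ≤ n * D) (hD : 0 < D)
    (hn : 12 * k ^ 2 * (1 + 3 * D) ≤ n) :
    ∃ f : Finset (Fin n), f.card = 3 ∧ (∀ e ∈ E, (e ∩ f).card ≤ 1) ∧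
      (∀ v ∈ f, (E.filter fun e => v ∈ e).card < D) ∧
      ∑ c : Fin n → Fin k, (1 / 2 : ℝ) ^ X (insert f E) c ≤
        (1 - 1 / (4 * (k : ℝ) ^ 2)) * ∑ c : Fin n → Fin k, (1 / 2 : ℝ) ^ X E c := by
  classical
  let U := univ.filter fun v => (E.filter fun e => v ∈ e).card < D
  have hU : n ≤ 2 * U.card := by
    have a1 : ∑ v, (E.filter fun e => v ∈ e).card = 3 * E.card := by
      simp only [card_filter]
      rw [sum_comm]
      simp only [sum_ite_mem, univ_inter, sum_const, smul_eq_mul, mul_one]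
      rw [sum_congr rfl h3]; simp [mul_comm]
    have a2 : ∑ _v ∈ Uᶜ, D ≤ ∑ v, (E.filter fun e => v ∈ e).card :=
      (sum_le_sum fun v hv => by simpa [U] using hv).trans
        (sum_le_sum_of_subset (subset_univ _))
    rw [sum_const, smul_eq_mul, a1] at a2
    have a3 : Uᶜ.card + U.card = n := by rw [card_compl_add_card]; simp
    have : 2 * Uᶜ.card * D ≤ n * D := by nlinarith
    have := Nat.le_of_mul_le_mul_right this hD
    omega
  let B : Fin n → Fin n → Prop := fun x y => x = y ∨ ∃ e ∈ E, x ∈ e ∧ y ∈ e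
  have hB : ∀ x, ∑ y ∈ U, (if B x y then (1 : ℝ) else 0) ≤ 1 + 3 * D := by
    intro x
    rw [sum_boole]
    have : (U.filter (B x)).card ≤ 1 + 3 * D := by
      have s : U.filter (B x) ⊆ insert x ((E.filter fun e => x ∈ e).biUnion id) := by
        intro y hy
        simp only [mem_filter, B] at hy
        simp only [mem_insert, mem_biUnion, mem_filter, id]
        rcases hy.2 with h | ⟨e, h1, h2, h4⟩
        · exact Or.inl h.symm
        · exact Or.inr ⟨e, ⟨h1, h2⟩, h4⟩
      have b := card_biUnion_le_card_mul (E.filter fun e => x ∈ e) id 3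
        fun e he => (h3 e (mem_filter.1 he).1).le
      have := (card_le_card s).trans (card_insert_le _ _)
      have := hd x
      omega
    exact_mod_cast this
  obtain ⟨u, hu⟩ : ∃ u : ℝ, u = (U.card : ℝ) := ⟨_, rfl⟩
  have k0 : (0 : ℝ) < k := by exact_mod_cast hk
  have u1 : 6 * (k : ℝ) ^ 2 * (1 + 3 * D) ≤ u := by
    have : 12 * k ^ 2 * (1 + 3 * D) ≤ 2 * U.card := hn.trans hU
    have : (12 : ℝ) * k ^ 2 * (1 + 3 * D) ≤ 2 * U.card := by exact_mod_cast this
    linarith
  have u0 : 0 < u := lt_of_lt_of_le (by positivity) u1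
  let A := (U ×ˢ U ×ˢ U).filter fun p => ¬ B p.1 p.2.1 ∧ ¬ B p.1 p.2.2 ∧ ¬ B p.2.1 p.2.2
  have hA : (A.card : ℝ) ≤ u ^ 3 := by
    have := card_filter_le (U ×ˢ U ×ˢ U) fun p => ¬ B p.1 p.2.1 ∧ ¬ B p.1 p.2.2 ∧ ¬ B p.2.1 p.2.2
    simp only [card_product] at this
    have : (A.card : ℝ) ≤ U.card * (U.card * U.card) := by exact_mod_cast this
    rw [pow_three, hu]; exact this
  have hm : ∀ c : Fin n → Fin k, u ^ 3 / (2 * k ^ 2) ≤
      ∑ p ∈ A, if c p.1 = c p.2.1 ∧ c p.1 = c p.2.2 then (1 : ℝ) else 0 := by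
    intro c
    have m := mono U c
    rw [← hu] at m
    have b1 : ∑ x ∈ U, ∑ y ∈ U, ∑ _z ∈ U, (if B x y then (1 : ℝ) else 0) ≤
        u * (u * (1 + 3 * D)) := by
      simp only [sum_const, nsmul_eq_mul, ← mul_sum]
      rw [← hu]
      gcongr
      simpa [hu, mul_add] using sum_le_sum fun x (_ : x ∈ U) => hB x
    have b2 : ∑ x ∈ U, ∑ _y ∈ U, ∑ z ∈ U, (if B x z then (1 : ℝ) else 0) ≤
        u * (u * (1 + 3 * D)) := by
      simp only [sum_const, nsmul_eq_mul, ← mul_sum]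
      rw [← hu]
      gcongr
      simpa [hu, mul_add] using sum_le_sum fun x (_ : x ∈ U) => hB x
    have b3 : ∑ _x ∈ U, ∑ y ∈ U, ∑ z ∈ U, (if B y z then (1 : ℝ) else 0) ≤
        u * (u * (1 + 3 * D)) := by
      simp only [sum_const, nsmul_eq_mul]
      rw [← hu]
      gcongr
      simpa [hu, mul_add] using sum_le_sum fun x (_ : x ∈ U) => hB x
    have b4 : ∑ x ∈ U, ∑ y ∈ U, ∑ z ∈ U, ((if c x = c y ∧ c x = c z then (1 : ℝ) else 0) -
        (if B x y then (1 : ℝ) else 0) - (if B x z then (1 : ℝ) else 0) -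
        (if B y z then (1 : ℝ) else 0)) ≤
        ∑ p ∈ A, if c p.1 = c p.2.1 ∧ c p.1 = c p.2.2 then (1 : ℝ) else 0 := by
      simp only [A, sum_filter, sum_product]
      refine sum_le_sum fun x _ => sum_le_sum fun y _ => sum_le_sum fun z _ => ?_
      by_cases a : B x y <;> by_cases b : B x z <;> by_cases d : B y z <;>
        simp only [a, b, d, if_true, if_false, not_true, not_false_eq_true, and_self, and_true,
          and_false] <;> split_ifs <;> norm_num
    simp only [sum_sub_distrib] at b4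
    have b5 : 3 * (u * (u * (1 + 3 * D))) ≤ u ^ 3 / (2 * k ^ 2) := by
      rw [le_div_iff₀ (by positivity)]
      have := mul_le_mul_of_nonneg_left u1 (mul_nonneg u0.le u0.le)
      nlinarith
    have b6 : u ^ 3 / k ^ 2 = 2 * (u ^ 3 / (2 * k ^ 2)) := by field_simp
    linarith
  have hne : A.Nonempty := by
    by_contra h
    have := hm fun _ => ⟨0, hk⟩
    rw [not_nonempty_iff_eq_empty.1 h, sum_empty] at this
    have : 0 < u ^ 3 / (2 * k ^ 2) := by positivity
    linarith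
  obtain ⟨p, hp, hle⟩ := exists_le_of_sum_le hne
    (f := fun p => ∑ c : Fin n → Fin k, (1 / 2 : ℝ) ^ X E c *
      (1 - (if c p.1 = c p.2.1 ∧ c p.1 = c p.2.2 then (1 : ℝ) else 0) / 2))
    (g := fun _ => (1 - 1 / (4 * (k : ℝ) ^ 2)) * ∑ c : Fin n → Fin k, (1 / 2 : ℝ) ^ X E c) (by
      rw [sum_comm, sum_const, nsmul_eq_mul, mul_sum, mul_sum]
      refine sum_le_sum fun c _ => ?_
      rw [← mul_sum, sum_sub_distrib, ← sum_div, sum_const, nsmul_eq_mul, mul_one]
      have a := hm c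
      have b : (A.card : ℝ) * (1 / (4 * k ^ 2)) ≤ u ^ 3 / (2 * k ^ 2) / 2 := by
        have : u ^ 3 / (2 * k ^ 2) / 2 = u ^ 3 * (1 / (4 * (k : ℝ) ^ 2)) := by field_simp; norm_num
        rw [this]; gcongr
      have w : (0 : ℝ) ≤ (1 / 2) ^ X E c := by positivity
      nlinarith)
  obtain ⟨x, y, z⟩ := p
  simp only [A, B, mem_filter, mem_product, not_or, not_exists, not_and, U, mem_univ,
    true_and] at hp
  obtain ⟨⟨hx, hy, hz⟩, ⟨n1, m1⟩, ⟨n2, m2⟩, n3, m3⟩ := hp
  have hc : ({x, y, z} : Finset (Fin n)).card = 3 := card_eq_three.2 ⟨x, y, z, n1, n2, n3, rfl⟩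
  have hi : ∀ e ∈ E, (e ∩ {x, y, z}).card ≤ 1 := by
    intro e he
    refine card_le_one.2 fun a ha b hb => ?_
    simp only [mem_inter, mem_insert, mem_singleton] at ha hb
    have := m1 e he
    have := m2 e he
    have := m3 e he
    rcases ha with ⟨ha, rfl | rfl | rfl⟩ <;> rcases hb with ⟨hb, rfl | rfl | rfl⟩ <;> tauto
  refine ⟨{x, y, z}, hc, hi, fun v hv => ?_, le_trans (le_of_eq ?_) hle⟩
  · simp only [mem_insert, mem_singleton] at hv
    rcases hv with rfl | rfl | rfl <;> assumption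
  · refine sum_congr rfl fun c _ => ?_
    have hf : ({x, y, z} : Finset (Fin n)) ∉ E := fun h => by
      have := hi _ h
      rw [inter_self] at this
      omega
    have : (∀ a ∈ ({x, y, z} : Finset (Fin n)), ∀ b ∈ ({x, y, z} : Finset (Fin n)), c a = c b) ↔
        c x = c y ∧ c x = c z := by
      simp only [mem_insert, mem_singleton, forall_eq_or_imp, forall_eq]
      grind
    unfold X
    rw [filter_insert]
    simp only [this]
    split_ifs
    · rw [card_insert_of_notMem (fun h => hf (mem_filter.1 h).1), pow_succ]; norm_num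
    · simp

theorem build (D : ℕ) (hk : 0 < k) (hD : 0 < D) (hn : 12 * k ^ 2 * (1 + 3 * D) ≤ n) (j : ℕ)
    (hj : 6 * j ≤ n * D) : ∃ E : Finset (Finset (Fin n)), (∀ e ∈ E, e.card = 3) ∧
      (∀ e ∈ E, ∀ f ∈ E, e ≠ f → (e ∩ f).card ≤ 1) ∧
      (∀ v, (E.filter fun e => v ∈ e).card ≤ D) ∧ E.card ≤ j ∧
      ∑ c : Fin n → Fin k, (1 / 2 : ℝ) ^ X E c ≤ (1 - 1 / (4 * (k : ℝ) ^ 2)) ^ j * k ^ n := by
  induction j with
  | zero => exact ⟨∅, by simp, by simp, by simp, by simp, by simp [X]⟩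
  | succ j ih =>
    obtain ⟨E, h1, h2, h3, h4, h5⟩ := ih (by omega)
    obtain ⟨f, f1, f2, f3, f4⟩ := step D hk E h1 h3 (by omega) hD hn
    refine ⟨insert f E, by simpa [f1] using h1, ?_, fun v => ?_,
      (card_insert_le _ _).trans (by omega), f4.trans ?_⟩
    · intro a ha b hb hab
      rcases mem_insert.1 ha with rfl | ha' <;> rcases mem_insert.1 hb with rfl | hb'
      · exact absurd rfl hab
      · rw [inter_comm]; exact f2 b hb'
      · exact f2 a ha'
      · exact h2 a ha' b hb' hab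
    · rw [filter_insert]
      split_ifs with h
      · exact (card_insert_le _ _).trans (f3 v h)
      · exact h3 v
    · rw [pow_succ' _ j, mul_assoc]
      have k1 : (1 : ℝ) ≤ k := by exact_mod_cast hk
      have : 1 / (4 * (k : ℝ) ^ 2) ≤ 1 := by
        rw [div_le_one (by positivity)]; nlinarith
      exact mul_le_mul_of_nonneg_left h5 (by linarith)

end Pool.Agent.H.MP_b2f50e_co.A
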